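import Pool.Agent.Y243.ManN.Main

namespace Pool.Agent.Results.MP_1f0905_gt.ManifoldsOfAllDimensions

open Pool.Agent.Helper185.Man Pool.Agent.Helper185.Fat

/-- The dichotomy fails in ZFC for manifolds: for every `n ≥ 2` there is a connected Hausdorff
space `M`, covered by at most `ℵ₁` open sets homeomorphic to `ℝⁿ`, with a `G_δ`-diagonal, locally
compact, locally metrizable and of weight at most `ℵ₁`, which contains no perfect preimage of
`ω₁` and is not quasi-developable. -/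
theorem result : ∀ n : ℕ, 2 ≤ n → ∃ (M : Type) (_ : TopologicalSpace M),
    IsMfd M n ∧ MfdWeightLeAleph1 M n ∧ HasGdeltaDiagonal M ∧
    T2Space M ∧ LocallyCompactSpace M ∧ LocallyMetrizable M ∧ WeightLeAleph1 M ∧
    ¬ ContainsPerfectPreimage M ∧ ¬ QuasiDevelopable M := by
  intro n hn
  obtain ⟨M, _, h⟩ := Pool.Agent.Y243.ManN.all_dim
  obtain ⟨k, rfl⟩ := Nat.exists_eq_add_of_le hn
  obtain ⟨g1, g2, g3⟩ := Pool.Agent.Y243.ManN.euclid k
  obtain ⟨a1, a2, ⟨W, w1, w2⟩, a4⟩ := h k _ g1 g2 g3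
  exact ⟨_, inferInstance, a1, a2, ⟨W, w1, w2⟩, a1.2.1,
    Pool.Agent.Y243.ManN.locallyCompact_of_mfd a1,
    Pool.Agent.Y243.ManN.locallyMetrizable_of_mfd a1,
    Pool.Agent.Y243.ManN.weight_of_mfd a2,
    Pool.Agent.Y243.ManN.no_perfect_preimage_of_gdelta w1 w2, a4⟩

end Pool.Agent.Results.MP_1f0905_gt.ManifoldsOfAllDimensions
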